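import Pool.Agent.W325.S3.Stm
import Pool.Agent.H46R2.K3.HK
import Pool.Agent.H46R2.K3.MU
import Pool.Agent.H46R2.K3.Basic

/-! Project S3, part HLE: half-space walks of small height. -/

set_option autoImplicit false

namespace Pool.Agent.W74.S3.Hle

open Finset Pool.Agent.H46R2.K3 Pool.Agent.H46R2.K3.P Pool.Agent.W325.S3

/-- the cube with centre `c` and radius `R` -/
noncomputable def cube (c : V) (R : ℤ) : Finset V := Finset.Icc (fun d => c d - R) (fun d => c d + R)

theorem mem_cube {c y : V} {R : ℤ} : y ∈ cube c R ↔ ∀ d, |y d - c d| ≤ R := by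
  unfold cube
  rw [Finset.mem_Icc, Pi.le_def, Pi.le_def]
  constructor
  · rintro ⟨h1, h2⟩ d
    have a := h1 d
    have b := h2 d
    rw [abs_le]
    constructor <;> linarith
  · intro h
    refine ⟨fun d => ?_, fun d => ?_⟩
    · have := abs_le.1 (h d)
      linarith [this.1]
    · have := abs_le.1 (h d)
      linarith [this.2]

theorem card_cube (c : V) (R : ℕ) : #(cube c R) = (2 * R + 1) ^ 3 := by
  unfold cube
  rw [Pi.card_Icc]
  have e : ∀ d : Fin 3, #(Finset.Icc (c d - (R : ℤ)) (c d + (R : ℤ))) = 2 * R + 1 := by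
    intro d
    rw [Int.card_Icc]
    omega
  simp only [e]
  simp

theorem E_ge {I : ℕ} {E : ℕ → ℕ} {r : ℕ → ℝ} {h len : ℕ → ℕ} {B : ℕ → Finset (List St)}
    (hL : Lad I E r h len B) : ∀ l ≤ I, 1 ≤ E l := by
  intro l
  induction l with
  | zero => intro _; rw [hL.E_zero]
  | succ l ih =>
    intro hl
    exact (ih (by omega)).trans (hL.E_mono l (by omega))

theorem mem_rel {w : List St} {y : V} :
    y ∈ (rel w).toFinset ↔ ∃ i ≤ w.length, y = pos w i - disp w := by
  rw [List.mem_toFinset]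
  unfold rel
  rw [List.mem_map]
  constructor
  · rintro ⟨i, hi, rfl⟩
    rw [List.mem_range] at hi
    exact ⟨i, by omega, rfl⟩
  · rintro ⟨i, hi, rfl⟩
    exact ⟨i, by rw [List.mem_range]; omega, rfl⟩

/-- the neighbourhood of a covered walk -/
theorem vol_bound {w : List St} {E p : ℕ} (hE : 1 ≤ E) (hc : Cov w E p) :
    ∃ N : Finset V, (∀ y, near (rel w).toFinset (48 * E) y → y ∈ N) ∧
      (#N : ℝ) ≤ (p : ℝ) * (99 * (E : ℝ)) ^ 3 := by
  classical
  obtain ⟨P, hP1, hP2⟩ := hc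
  refine ⟨P.biUnion (fun a => cube (a - disp w) ((49 * E : ℕ) : ℤ)), ?_, ?_⟩
  · rintro y ⟨a, ha, hay⟩
    obtain ⟨i, hi, rfl⟩ := mem_rel.1 ha
    obtain ⟨q, hq, hqi⟩ := hP2 i hi
    rw [Finset.mem_biUnion]
    refine ⟨q, hq, mem_cube.2 fun d => ?_⟩
    have h1 := hay d
    have h2 := hqi d
    simp only [Pi.sub_apply] at h1 ⊢
    push_cast at h1 ⊢
    rw [abs_le] at h1 h2 ⊢
    constructor <;> linarith [h1.1, h1.2, h2.1, h2.2]
  · have h1 : #(P.biUnion (fun a => cube (a - disp w) ((49 * E : ℕ) : ℤ))) ≤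
        #P * (2 * (49 * E) + 1) ^ 3 := by
      refine Finset.card_biUnion_le_card_mul _ _ _ fun a _ => ?_
      rw [card_cube]
    have h2 : (#(P.biUnion (fun a => cube (a - disp w) ((49 * E : ℕ) : ℤ))) : ℝ) ≤
        (#P : ℝ) * (2 * (49 * (E : ℝ)) + 1) ^ 3 := by exact_mod_cast h1
    refine h2.trans ?_
    have h3 : (#P : ℝ) ≤ p := by exact_mod_cast hP1
    have h4 : (1 : ℝ) ≤ E := by exact_mod_cast hE
    have h5 : (2 * (49 * (E : ℝ)) + 1) ^ 3 ≤ (99 * (E : ℝ)) ^ 3 := by
      apply pow_le_pow_left₀ (by positivity)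
      linarith
    exact mul_le_mul h3 h5 (by positivity) (by positivity)

theorem H_le_hits {w : List St} (hw : Saw w) (u : List St) :
    H (rel w) u ≤ hits (rel w).toFinset 0 u := by
  classical
  unfold H hits
  rw [Finset.card_filter]
  refine Finset.sum_le_sum fun j _ => ?_
  rw [zero_add]
  split_ifs with h
  · exact count_rel_saw hw _
  · rw [List.mem_toFinset] at h
    rw [List.count_eq_zero_of_not_mem h]

theorem mu_nonneg' : 0 ≤ mu := le_trans zero_le_one one_le_mu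

open Classical in
theorem hle_bd (hS : S_STAIR) (hA : S_AVG) (hC : S_COUNT) : S_HLE := by
  intro Q I N g hQ hI hN hg0 hg E r h len B hLad hBad Lm hLm R F Y hRpos hRmono hRF hEF hrR hrF
    htaper havg havgF n hnN
  have hmu1 : 1 ≤ mu := one_le_mu
  have hmu0 : 0 < mu := by linarith
  have hY0 : 0 ≤ Y := le_trans (mul_nonneg (hLad.r_pos I le_rfl).le (Nat.cast_nonneg F)) hrF
  set Lx : ℕ := (6 * (I + 1) * R I + F) * Lm with hLx
  set Y' : ℝ := 14 * ((I : ℝ) + 1) ^ 2 * Y with hY'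
  have hY'0 : 0 ≤ Y' := by positivity
  have hmun : 0 < mu ^ n := pow_pos hmu0 n
  rcases Nat.eq_zero_or_pos n with hn | hn
  · subst hn
    have h1 : (hle 0 (E I) : ℝ) ≤ 1 := by
      have : hle 0 (E I) ≤ 1 := by
        unfold hle
        refine (Finset.card_filter_le _ _).trans ?_
        rw [card_W]
        simp
      exact_mod_cast this
    have h2 : (1 : ℝ) ≤ I := by exact_mod_cast hI
    have h3 : 0 ≤ Real.exp Y' * ((Lx : ℝ) + 1) * (37 * (((0 : ℕ) : ℝ) + Lx + 1) ^ 4) ^ ⌊Y'⌋₊ := by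
      positivity
    rw [pow_zero, one_mul]
    linarith
  -- typical walks
  set T : Finset (List St) := (W n).filter fun w => Hsp w ∧ ∀ i ≤ n, pos w i 0 ≤ ((E I : ℕ) : ℤ)
    with hT
  set S : Finset (List St) := T.filter fun w => ∀ l ∈ Icc 1 I, Cov w (E l) (2 * (n / Q ^ l) + 2)
    with hSdef
  set Bd : ℕ → Finset (List St) := fun l =>
    (W n).filter fun w => Saw w ∧ ¬ Cov w (E l) (2 * (n / Q ^ l) + 2) with hBd
  have hsub : T ⊆ ((Icc 1 I).biUnion Bd) ∪ S := by
    intro w hw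
    rw [Finset.mem_union]
    by_cases hcov : ∀ l ∈ Icc 1 I, Cov w (E l) (2 * (n / Q ^ l) + 2)
    · right
      exact Finset.mem_filter.2 ⟨hw, hcov⟩
    · left
      push Not at hcov
      obtain ⟨l, hl, hl2⟩ := hcov
      rw [Finset.mem_biUnion]
      refine ⟨l, hl, ?_⟩
      have hw' := Finset.mem_filter.1 hw
      exact Finset.mem_filter.2 ⟨hw'.1, hw'.2.1.1, hl2⟩
  have hgl : ∀ l, 1 ≤ g l := by
    intro l
    induction l with
    | zero => exact hg0
    | succ l ih => exact ih.trans (hg l)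
  have hbad : ∀ l ∈ Icc 1 I, (#(Bd l) : ℝ) ≤ mu ^ n := by
    intro l hl
    rw [Finset.mem_Icc] at hl
    have h1 := hBad l hl.1 hl.2 n (2 * (n / Q ^ l) + 2)
    have h2 : (bad n (E l) (2 * (n / Q ^ l) + 2) : ℝ) = (#(Bd l) : ℝ) := rfl
    rw [h2] at h1
    refine h1.trans ?_
    have h3 : Real.exp (g l * (5 * ((n / Q ^ l : ℕ) : ℝ) + 1 -
        3 * ((2 * (n / Q ^ l) + 2 : ℕ) : ℝ))) ≤ 1 := by
      rw [Real.exp_le_one_iff]
      push_cast
      have hx : (0 : ℝ) ≤ ((n / Q ^ l : ℕ) : ℝ) := Nat.cast_nonneg _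
      have := hgl l
      nlinarith
    calc mu ^ n * Real.exp (g l * (5 * ((n / Q ^ l : ℕ) : ℝ) + 1 -
        3 * ((2 * (n / Q ^ l) + 2 : ℕ) : ℝ))) ≤ mu ^ n * 1 :=
          mul_le_mul_of_nonneg_left h3 hmun.le
      _ = mu ^ n := mul_one _
  have hcount : (#S : ℝ) ≤ mu ^ n * Real.exp Y' * ((Lx : ℝ) + 1) *
      (37 * ((n : ℝ) + Lx + 1) ^ 4) ^ ⌊Y'⌋₊ := by
    refine hC n Lx ⌊Y'⌋₊ Y' S ?_ ?_
    · intro w hw
      exact mem_W.1 (Finset.mem_filter.1 (Finset.mem_filter.1 hw).1).1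
    · intro w hw
      have hwS := Finset.mem_filter.1 hw
      have hwT := Finset.mem_filter.1 hwS.1
      have hlen : w.length = n := mem_W.1 hwT.1
      have hsaw : Saw w := hwT.2.1.1
      have hhsp : ∀ i, 1 ≤ i → i ≤ w.length → 0 < pos w i 0 := hwT.2.1.2
      have hht : ∀ i ≤ n, pos w i 0 ≤ ((E I : ℕ) : ℤ) := hwT.2.2
      have hcov := hwS.2
      set A : Finset V := (rel w).toFinset with hAdef
      have hNum : Num I E r A (fun l => (2 * ((N / Q ^ (l + 1) : ℕ) : ℝ) + 2) *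
          (99 * (E (l + 1) : ℝ)) ^ 3) R F Y := by
        refine ⟨hRpos, hRmono, hRF, hrR, hrF, htaper, ?_, ?_, ?_⟩
        · intro l hl
          have hE1 : 1 ≤ E (l + 1) := E_ge hLad (l + 1) (by omega)
          obtain ⟨N', hN1, hN2⟩ := vol_bound hE1 (hcov (l + 1) (Finset.mem_Icc.2 ⟨by omega, by omega⟩))
          refine ⟨N', hN1, hN2.trans ?_⟩
          refine mul_le_mul_of_nonneg_right ?_ (by positivity)
          have h1 : n / Q ^ (l + 1) ≤ N / Q ^ (l + 1) := Nat.div_le_div_right hnN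
          push_cast
          have h2 : ((n / Q ^ (l + 1) : ℕ) : ℝ) ≤ ((N / Q ^ (l + 1) : ℕ) : ℝ) := by exact_mod_cast h1
          linarith
        · exact havg
        · exact havgF
      obtain ⟨u, hu, hcost⟩ := hA I E r hLad.r_anti hLad.r_pos A _ R F Y hNum
      obtain ⟨L, U, z, hL1, hz, hEx⟩ := hS I E r h len B hLad Lm hLm A R F u hRpos hRmono hRF hu
      set cost : ℝ := ∑ i ∈ range (I + 1), stc A I E r (cor u i) (u i) +
        Psi A I E r (cor u (I + 1)) 0 F with hcostdef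
      have hdw : 0 < disp w 0 := by
        have := hhsp w.length (by omega) le_rfl
        rwa [pos_length] at this
      refine ⟨L, hL1, U, fun v hv => ⟨hEx.len v hv, ?_, ?_⟩, ?_⟩
      · -- bridge
        have hvlen : v.length = L := hEx.len v hv
        have hvd : disp v = z := hEx.disp v hv
        have hdisp : disp (w ++ v) 0 = disp w 0 + z 0 := by
          rw [disp_append, hvd]
          rfl
        intro i hi1 hi2
        rw [List.length_append] at hi2
        rw [hdisp]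
        rcases Nat.lt_or_ge w.length i with hlt | hge
        · rw [pos_append_right' v hlt.le]
          have h1 := hEx.ht v hv (i - w.length) (by omega)
          rw [Pi.add_apply]
          constructor <;> linarith [h1.1, h1.2]
        · rw [pos_append_left v hge]
          have h1 := hhsp i hi1 hge
          have h2 := hht i (by omega)
          have h3 : ((E I : ℕ) : ℤ) ≤ (F : ℤ) := by exact_mod_cast hEF
          constructor <;> linarith
      · -- coincidences
        have h1 := K_append w v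
        rw [K_saw hsaw, K_saw (hEx.mono v hv).1] at h1
        have h2 := H_le_hits hsaw v
        have h3 := hEx.hit v hv
        refine Nat.le_floor ?_
        have h4 : (K (w ++ v) : ℝ) ≤ (hits A 0 v : ℝ) := by
          have : K (w ++ v) ≤ hits A 0 v := by
            rw [zero_add, zero_add] at h1
            exact h1.trans h2
          exact_mod_cast this
        exact h4.trans (h3.trans hcost)
      · refine le_trans ?_ hEx.card
        refine mul_le_mul_of_nonneg_left ?_ (pow_nonneg hmu0.le _)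
        exact Real.exp_le_exp.2 (neg_le_neg hcost)
  have hT1 : (hle n (E I) : ℝ) ≤ (I : ℝ) * mu ^ n + (#S : ℝ) := by
    have h1 : hle n (E I) = #T := rfl
    rw [h1]
    have h2 : #T ≤ ∑ l ∈ Icc 1 I, #(Bd l) + #S :=
      (Finset.card_le_card hsub).trans ((Finset.card_union_le _ _).trans
        (Nat.add_le_add_right Finset.card_biUnion_le _))
    have h3 : (#T : ℝ) ≤ ∑ l ∈ Icc 1 I, (#(Bd l) : ℝ) + (#S : ℝ) := by exact_mod_cast h2
    have h4 : ∑ l ∈ Icc 1 I, (#(Bd l) : ℝ) ≤ ∑ l ∈ Icc 1 I, mu ^ n := Finset.sum_le_sum hbad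
    have h5 : ∑ l ∈ Icc 1 I, mu ^ n = (I : ℝ) * mu ^ n := by
      rw [Finset.sum_const, Nat.card_Icc, nsmul_eq_mul]
      simp
    linarith
  refine hT1.trans ?_
  have : mu ^ n * ((I : ℝ) + Real.exp Y' * ((Lx : ℝ) + 1) *
      (37 * ((n : ℝ) + Lx + 1) ^ 4) ^ ⌊Y'⌋₊) = (I : ℝ) * mu ^ n +
      mu ^ n * Real.exp Y' * ((Lx : ℝ) + 1) * (37 * ((n : ℝ) + Lx + 1) ^ 4) ^ ⌊Y'⌋₊ := by ring
  rw [this]
  linarith

end Pool.Agent.W74.S3.Hle
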